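import Pool.Agent.AEC.StmtsB

open FirstOrder FirstOrder.Language Cardinal Set

universe u

namespace Pool.Agent.AEC.H74

section

variable {J ι : Type u} [LinearOrder J] (I : ι → Type u)
  [∀ i, LinearOrder (I i)] (v : ∀ i, J ↪o I i)

/-- The cut of a point. -/
def cut (i : ι) (x : I i) : LowerSet J :=
  ⟨{a | v i a < x}, fun _ _ hab ha => lt_of_le_of_lt ((v i).monotone hab) ha⟩

theorem mem_cut (i : ι) (x : I i) (a : J) : a ∈ cut I v i x ↔ v i a < x := Iff.rfl

theorem cut_mono (i : ι) {x y : I i} (h : x ≤ y) : cut I v i x ≤ cut I v i y :=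
  fun _ ha => lt_of_lt_of_le ha h

open Classical in
/-- The second component. -/
noncomputable def snd (i : ι) (x : I i) : WithTop (Σₗ i, I i) :=
  if x ∈ Set.range (v i) then ⊤ else ((toLex (⟨i, x⟩ : Σ i, I i) : Σₗ i, I i) : WithTop (Σₗ i, I i))

/-- The map into the amalgam. -/
noncomputable def toZ (i : ι) (x : I i) : LowerSet J ×ₗ WithTop (Σₗ i, I i) :=
  toLex (cut I v i x, snd I v i x)

theorem toZ_strictMono [LinearOrder ι] (i : ι) : StrictMono (toZ I v i) := by
  intro x y hxy
  have h1 : cut I v i x ≤ cut I v i y := cut_mono I v i hxy.le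
  rcases lt_or_eq_of_le h1 with h2 | h2
  · exact Prod.Lex.toLex_lt_toLex.2 (Or.inl h2)
  · refine Prod.Lex.toLex_lt_toLex.2 (Or.inr ⟨h2, ?_⟩)
    have hx : x ∉ Set.range (v i) := by
      rintro ⟨a, rfl⟩
      have h3 : a ∈ cut I v i y := (mem_cut I v i y a).2 hxy
      rw [← h2] at h3
      exact lt_irrefl _ ((mem_cut I v i _ a).1 h3)
    change snd I v i x < snd I v i y
    unfold snd
    rw [if_neg hx]
    by_cases hy : y ∈ Set.range (v i)
    · rw [if_pos hy]
      exact WithTop.coe_lt_top _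
    · rw [if_neg hy]
      refine WithTop.coe_lt_coe.2 ?_
      exact Sigma.Lex.right _ _ hxy

theorem toZ_base (i j : ι) (a : J) : toZ I v i (v i a) = toZ I v j (v j a) := by
  unfold toZ snd
  rw [if_pos ⟨a, rfl⟩, if_pos ⟨a, rfl⟩]
  have h : cut I v i (v i a) = cut I v j (v j a) := by
    apply LowerSet.ext
    ext b
    change v i b < v i a ↔ v j b < v j a
    rw [(v i).lt_iff_lt, (v j).lt_iff_lt]
  rw [h]

end

theorem amo : AmoStmt.{u} := by
  classical
  intro J ι _ I _ v
  let _ : LinearOrder ι := linearOrderOfSTO (WellOrderingRel (α := ι))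
  exact ⟨LowerSet J ×ₗ WithTop (Σₗ i, I i), inferInstance,
    fun i => OrderEmbedding.ofStrictMono (toZ I v i) (toZ_strictMono I v i),
    fun i j x => toZ_base I v i j x⟩

end Pool.Agent.AEC.H74
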