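import Pool.Agent.AEC.StmtsB

open FirstOrder FirstOrder.Language Cardinal Set

universe u

namespace Pool.Agent.AEC.H74

theorem s1f (hSTB : StbStmt.{u}) (hCCL : CclStmt.{u}) (hCN2 : Cn2Stmt.{u}) (hCN3 : Cn3Stmt.{u}) :
    S1fStmt.{u} := by
  intro L κ K E l χ hκχ hl hlχ Q0 hQ0
  have hχ : ℵ₀ ≤ χ := K.aleph0_le.trans hκχ
  have h2l : (2 : Cardinal.{u}) ≤ l := (Cardinal.natCast_le_aleph0 (n := 2)).trans hl
  have h2 : (2 : Cardinal.{u}) ^ χ ≤ l := by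
    rw [← hlχ]
    exact Cardinal.power_le_power_right h2l
  let T : Type u := Σ S : {S : L.Substructure Q0.α // #S ≤ χ ∧ K.emb S.subtype},
    E.Sg (AEC.sub Q0 S.1 S.2.2) χ.out
  let D : ∀ B : K.Mod, K.Hom Q0 B → Set T := fun B f =>
    {p | p.2 ∈ E.D χ.out (f.comp (AEC.subHom Q0 p.1.1 p.1.2.2))}
  have hT : #T ≤ l := by
    have h3 : #{S : L.Substructure Q0.α // #S ≤ χ ∧ K.emb S.subtype} ≤ l := by
      have h4 : #{S : L.Substructure Q0.α // #S ≤ χ} ≤ #Q0.α :=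
        hCN3 L Q0.α χ hχ (by rw [hQ0]; exact hl) (by rw [hQ0]; exact hlχ)
      rw [hQ0] at h4
      refine le_trans ?_ h4
      exact Cardinal.mk_le_of_injective
        (f := fun S : {S : L.Substructure Q0.α // #S ≤ χ ∧ K.emb S.subtype} =>
          (⟨S.1, S.2.1⟩ : {S : L.Substructure Q0.α // #S ≤ χ}))
        (fun S S' hSS => Subtype.ext (congrArg (fun z => z.1) hSS))
    have h5 : ∀ S : {S : L.Substructure Q0.α // #S ≤ χ ∧ K.emb S.subtype},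
        #(E.Sg (AEC.sub Q0 S.1 S.2.2) χ.out) ≤ 2 ^ χ := by
      intro S
      have h6 := hCN2 L κ K E (AEC.sub Q0 S.1 S.2.2) χ.out (by rw [Cardinal.mk_out]; exact hκχ)
        (by rw [Cardinal.mk_out]; exact S.2.1)
      rw [Cardinal.mk_out] at h6
      exact h6
    calc #T = Cardinal.sum
          (fun S : {S : L.Substructure Q0.α // #S ≤ χ ∧ K.emb S.subtype} =>
            #(E.Sg (AEC.sub Q0 S.1 S.2.2) χ.out)) := Cardinal.mk_sigma _
      _ ≤ Cardinal.sum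
          (fun _ : {S : L.Substructure Q0.α // #S ≤ χ ∧ K.emb S.subtype} =>
            (2 : Cardinal.{u}) ^ χ) := Cardinal.sum_le_sum _ _ h5
      _ = #{S : L.Substructure Q0.α // #S ≤ χ ∧ K.emb S.subtype} * 2 ^ χ :=
          Cardinal.sum_const' _ _
      _ ≤ l * l := mul_le_mul' h3 h2
      _ = l := Cardinal.mul_eq_self hl
  have hD : ∀ (B C : K.Mod) (e : K.Hom Q0 B) (f : K.Hom B C), D C (f.comp e) ⊆ D B e := by
    rintro B C e f p ⟨I, hI, v, g, hg⟩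
    exact ⟨I, hI, v, g.comp f, hg⟩
  have hQ : K.ChainClosed (fun A => #A.α = l) (max #T ℵ₀) := by
    intro J _ _ _ _ hJ
    exact (hCCL L κ K l hl).2 J (hJ.trans (max_le hT hl))
  obtain ⟨B, f, hB, hst⟩ := hSTB L κ K Q0 T D (fun A => #A.α = l) hD hQ hQ0
  refine ⟨B, f, hB, ?_⟩
  intro S h hS C g hC
  have h7 := hst C g hC
  ext σ
  have h8 : (⟨⟨S, hS, h⟩, σ⟩ : T) ∈ D C (g.comp f) ↔ (⟨⟨S, hS, h⟩, σ⟩ : T) ∈ D B f := by
    rw [h7]
  exact h8

end Pool.Agent.AEC.H74
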